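import Pool.Agent.BVM.Main
import Pool.Agent.MP_b1d3ea_lc.Internal
import Pool.Agent.MP_b1d3ea_lc.Transfer
import Pool.Agent.MP_b1d3ea_lc.Omega
import Pool.Agent.MP_b1d3ea_lc.AD
import Pool.Agent.MP_b1d3ea_lc.Card
import Pool.Agent.MP_b1d3ea_lc.SH
import Pool.Agent.MP_b1d3ea_lc.CoreThm

/-!
# It is consistent with ZFC that some Psi-space of cardinality at least b is star-Hurewicz

There is a first-order model `(M, E)` of ZFC in which there is an almost disjoint family `A` of infinite
subsets of `ω` with `|A| ≥ 𝔟` such that `Ψ(A)` is star-Hurewicz.  The model is a quotient, by an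
ultrafilter, of the Boolean-valued universe over the regular open algebra of a ccc forcing which adds an
almost disjoint family of size `κ = ℶ_ω` and then, by a finite support iteration of length `2 ^ κ`,
witnesses for the star-Hurewicz property, while the ground model functions stay unbounded.
-/

set_option autoImplicit false

namespace Pool.Agent.Results.MP_b1d3ea_lc.StarHurewiczConsistent

open Pool.Agent.BVM Pool.Agent.StarHur

/-- There is a model `(M, E)` of ZFC in which some Psi-space of cardinality at least `𝔟` is
star-Hurewicz. -/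
theorem result : ∃ (M : Type 1) (E : M → M → Prop), IsModelZFC E ∧ HasBigStarHurewiczPsi E := by
  obtain ⟨𝔹, i1, i2, K, a, hcore, ι, hι⟩ := exists_core
  obtain ⟨U⟩ := exists_UF (𝔹 := 𝔹)
  exact ⟨Mod U, U.E, isModelZFC_E U, transfer U omegaN (famN a) bOmega_omegaN (bAD_top hcore)
    (bCardGeB_top hcore ι hι) (bStarHur_top hcore)⟩

end Pool.Agent.Results.MP_b1d3ea_lc.StarHurewiczConsistent
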